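import Mathlib

set_option autoImplicit false

/-!
# Extremal even-cycle-intersecting families that are not double-translates of Sylow subgroups

Let `P` be a Sylow 2-subgroup of `S_n`, `n ≥ 5`.  Every odd permutation has a cycle of even length,
so the odd part of `P` may be replaced by a conjugate `g P_odd g⁻¹`.  For suitable `P` and `g` the
result is not a double-translate of any Sylow 2-subgroup.
-/

namespace Pool.Agent.Results.MP_acd7ab_co.NotTranslate

open Equiv Equiv.Perm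

/-- `F` is even-cycle-intersecting: for all distinct `σ, π ∈ F` the permutation `σ π⁻¹` has a cycle
of even length.  (`cycleType` is the multiset of the lengths of the non-trivial cycles; the
remaining cycles have length one.) -/
def EvenCycleIntersecting {n : ℕ} (F : Set (Perm (Fin n))) : Prop :=
  ∀ σ ∈ F, ∀ π ∈ F, σ ≠ π → ∃ m ∈ (σ * π⁻¹).cycleType, Even m

/-- `F` is extremal: even-cycle-intersecting, of maximum size. -/
def Extremal {n : ℕ} (F : Set (Perm (Fin n))) : Prop :=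
  EvenCycleIntersecting F ∧
    ∀ F' : Set (Perm (Fin n)), EvenCycleIntersecting F' → F'.ncard ≤ F.ncard

/-- `F = σ P π` for some Sylow 2-subgroup `P` of `S_n` and some `σ, π`. -/
def IsDoubleTranslate {n : ℕ} (F : Set (Perm (Fin n))) : Prop :=
  ∃ (P : Sylow 2 (Perm (Fin n))) (σ π : Perm (Fin n)),
    F = (fun g => σ * g * π) '' (P : Set (Perm (Fin n)))

variable {n : ℕ}

/-- a non-trivial permutation of 2-power order has an even cycle -/
lemma even_of_pow {x : Perm (Fin n)} {k : ℕ} (hx : x ^ 2 ^ k = 1) (hx1 : x ≠ 1) :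
    ∃ m ∈ x.cycleType, Even m := by
  have h1 : x.cycleType ≠ 0 := fun h => hx1 (cycleType_eq_zero.1 h)
  obtain ⟨m, hm⟩ := Multiset.exists_mem_of_ne_zero h1
  refine ⟨m, hm, ?_⟩
  have h2 : m ∣ 2 ^ k := (dvd_of_mem_cycleType hm).trans (orderOf_dvd_of_pow_eq_one hx)
  obtain ⟨j, _, hj⟩ := (Nat.dvd_prime_pow Nat.prime_two).1 h2
  have h3 := two_le_of_mem_cycleType hm
  rw [hj] at h3 ⊢
  rcases Nat.eq_zero_or_pos j with rfl | hj'
  · simp at h3
  · exact (Nat.even_pow.2 ⟨even_two, by omega⟩)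

/-- an odd permutation has an even cycle -/
lemma even_of_sign {x : Perm (Fin n)} (hx : sign x ≠ 1) : ∃ m ∈ x.cycleType, Even m := by
  by_contra hcon
  push Not at hcon
  apply hx
  rw [sign_of_cycleType']
  apply Multiset.prod_eq_one
  intro u hu
  rw [Multiset.mem_map] at hu
  obtain ⟨m, hm, rfl⟩ := hu
  have := Nat.not_even_iff_odd.1 (hcon m hm)
  rw [this.neg_one_pow, neg_neg]

lemma exists_extremal (n : ℕ) : ∃ F : Set (Perm (Fin n)), Extremal F := by
  have : Nonempty {F : Set (Perm (Fin n)) // EvenCycleIntersecting F} :=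
    ⟨⟨∅, fun g hg => absurd hg (by simp)⟩⟩
  obtain ⟨F, hF⟩ := Finite.exists_max
    (fun F : {F : Set (Perm (Fin n)) // EvenCycleIntersecting F} => F.1.ncard)
  exact ⟨F.1, F.2, fun F' hF' => hF ⟨F', hF'⟩⟩

lemma sylow_pow (P : Sylow 2 (Perm (Fin n))) {x : Perm (Fin n)} (hx : x ∈ P) :
    ∃ k : ℕ, x ^ 2 ^ k = 1 := by
  obtain ⟨k, hk⟩ := P.isPGroup' ⟨x, hx⟩
  refine ⟨k, ?_⟩
  have := congrArg Subtype.val hk
  simpa using this

/-- the even elements are kept, the odd ones are conjugated by `g` -/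
noncomputable def mix (g x : Perm (Fin n)) : Perm (Fin n) := if sign x = 1 then x else g * x * g⁻¹

lemma sign_mix (g x : Perm (Fin n)) : sign (mix g x) = sign x := by
  unfold mix
  split_ifs
  · rfl
  · rw [Perm.sign_mul, Perm.sign_mul, Perm.sign_inv, mul_comm (sign g), mul_assoc]
    simp

lemma mix_key (P : Sylow 2 (Perm (Fin n))) (g : Perm (Fin n)) {a b : Perm (Fin n)} (ha : a ∈ P)
    (hb : b ∈ P) (hab : a ≠ b) : ∃ m ∈ (mix g a * (mix g b)⁻¹).cycleType, Even m := by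
  have hab' : a * b⁻¹ ≠ 1 := fun h => hab (mul_inv_eq_one.1 h)
  obtain ⟨k, hk⟩ := sylow_pow P (P.mul_mem ha (P.inv_mem hb))
  by_cases h1 : sign a = sign b
  · by_cases h2 : sign a = 1
    · have e : mix g a * (mix g b)⁻¹ = a * b⁻¹ := by
        unfold mix
        rw [if_pos h2, if_pos (h1 ▸ h2)]
      rw [e]
      exact even_of_pow hk hab'
    · have e : mix g a * (mix g b)⁻¹ = g * (a * b⁻¹) * g⁻¹ := by
        unfold mix
        rw [if_neg h2, if_neg (h1 ▸ h2)]
        group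
      rw [e]
      refine even_of_pow (k := k) ?_ ?_
      · rw [conj_pow, hk]
        group
      · intro h
        apply hab'
        have := congrArg (fun y => g⁻¹ * y * g) h
        simpa [mul_assoc] using this
  · apply even_of_sign
    rw [Perm.sign_mul, Perm.sign_inv, sign_mix, sign_mix]
    intro h
    apply h1
    rcases Int.units_eq_one_or (sign a) with h' | h' <;>
      rcases Int.units_eq_one_or (sign b) with h'' | h'' <;> simp_all

lemma mix_injOn (P : Sylow 2 (Perm (Fin n))) (g : Perm (Fin n)) :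
    Set.InjOn (mix g) (P : Set (Perm (Fin n))) := by
  intro a ha b hb hab
  by_contra hne
  obtain ⟨m, hm, _⟩ := mix_key P g ha hb hne
  rw [hab, mul_inv_cancel, cycleType_one] at hm
  simp at hm

/-- the 4-cycle used in the construction, inside `S₅` -/
def c₅ : Perm (Fin 5) := swap 0 2 * (swap 2 1 * swap 1 3)

/-- the transposition used in the construction, inside `S₅` -/
def g₅ : Perm (Fin 5) := swap 3 4

lemma hc4 : c₅ ^ 4 = 1 := by decide +kernel

lemma hy3 : ((g₅ * c₅ * g₅⁻¹) ^ 2 * c₅ ^ 2) ^ 3 = 1 := by decide +kernel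

lemma hy1 : (g₅ * c₅ * g₅⁻¹) ^ 2 * c₅ ^ 2 ≠ 1 := by decide +kernel

lemma sign_swap_image (hn : 5 ≤ n) {i j : Fin 5} (hij : i ≠ j) :
    sign (viaEmbeddingHom (Fin.castLEEmb hn) (swap i j)) = -1 := by
  have h : viaEmbeddingHom (Fin.castLEEmb hn) (swap i j)
      = swap (Fin.castLEEmb hn i) (Fin.castLEEmb hn j) := by
    ext1 x
    rw [viaEmbeddingHom_apply]
    by_cases hx : x ∈ Set.range (Fin.castLEEmb hn)
    · obtain ⟨y, rfl⟩ := hx
      rw [viaEmbedding_apply]
      rcases eq_or_ne y i with rfl | h1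
      · simp
      · rcases eq_or_ne y j with rfl | h2
        · simp
        · rw [swap_apply_of_ne_of_ne h1 h2, swap_apply_of_ne_of_ne]
          · exact fun h => h1 ((Fin.castLEEmb hn).injective h)
          · exact fun h => h2 ((Fin.castLEEmb hn).injective h)
    · rw [viaEmbedding_apply_of_notMem _ _ _ hx, swap_apply_of_ne_of_ne]
      · rintro rfl; exact hx ⟨_, rfl⟩
      · rintro rfl; exact hx ⟨_, rfl⟩
  rw [h, sign_swap (fun h => hij ((Fin.castLEEmb hn).injective h))]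

/-- the elements `c`, `g` used in the construction -/
lemma exists_elements (hn : 5 ≤ n) : ∃ c g : Perm (Fin n), sign c = -1 ∧ c ^ 4 = 1 ∧
    ((g * c * g⁻¹) ^ 2 * c ^ 2) ^ 3 = 1 ∧ (g * c * g⁻¹) ^ 2 * c ^ 2 ≠ 1 := by
  have hι : Function.Injective (viaEmbeddingHom (Fin.castLEEmb hn)) :=
    viaEmbeddingHom_injective _
  refine ⟨viaEmbeddingHom (Fin.castLEEmb hn) c₅, viaEmbeddingHom (Fin.castLEEmb hn) g₅,
    ?_, ?_, ?_, ?_⟩
  · unfold c₅
    simp only [map_mul]
    rw [sign_swap_image hn (by decide), sign_swap_image hn (by decide),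
      sign_swap_image hn (by decide)]
    decide
  · rw [← map_pow, hc4, map_one]
  · rw [← map_inv, ← map_mul, ← map_mul, ← map_pow, ← map_pow, ← map_mul, ← map_pow, hy3, map_one]
  · rw [← map_inv, ← map_mul, ← map_mul, ← map_pow, ← map_pow, ← map_mul]
    intro h
    apply hy1
    apply hι
    rw [h, map_one]

/-- the mixed family is not a double-translate -/
lemma not_translate (P : Sylow 2 (Perm (Fin n))) {c g : Perm (Fin n)} (hcP : c ∈ P)
    (hcs : sign c = -1) (hy3 : ((g * c * g⁻¹) ^ 2 * c ^ 2) ^ 3 = 1)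
    (hy1 : (g * c * g⁻¹) ^ 2 * c ^ 2 ≠ 1) :
    ¬ IsDoubleTranslate (mix g '' (P : Set (Perm (Fin n)))) := by
  rintro ⟨Q, a, b, hQ⟩
  set F₁ : Set (Perm (Fin n)) := mix g '' (P : Set (Perm (Fin n))) with hF₁
  -- `F₁` contains `1`, `c²` and `g c g⁻¹`
  have hmem : ∀ x ∈ P, mix g x ∈ F₁ := fun x hx => ⟨x, hx, rfl⟩
  have h1 : (1 : Perm (Fin n)) ∈ F₁ := by
    have := hmem 1 P.one_mem
    rwa [mix, if_pos (map_one _)] at this
  have h2 : c ^ 2 ∈ F₁ := by
    have := hmem (c ^ 2) (P.pow_mem hcP 2)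
    rwa [mix, if_pos (by rw [map_pow, hcs]; decide)] at this
  have h3 : g * c * g⁻¹ ∈ F₁ := by
    have := hmem c hcP
    rwa [mix, if_neg (by rw [hcs]; decide)] at this
  -- all elements of `F₁` lie in the conjugate `a Q a⁻¹`
  have hconj : ∀ x ∈ F₁, ∃ q ∈ Q, x = a * q * a⁻¹ := by
    intro x hx
    rw [hQ] at h1 hx
    obtain ⟨q₀, hq₀, e₀⟩ := h1
    obtain ⟨q₁, hq₁, e₁⟩ := hx
    simp only at e₀ e₁
    refine ⟨q₁ * q₀⁻¹, Q.mul_mem hq₁ (Q.inv_mem hq₀), ?_⟩
    have hb : b = (a * q₀)⁻¹ := eq_inv_of_mul_eq_one_right e₀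
    rw [← e₁, hb]
    group
  obtain ⟨q₂, hq₂, e₂⟩ := hconj _ h2
  obtain ⟨q₃, hq₃, e₃⟩ := hconj _ h3
  have hyq : (g * c * g⁻¹) ^ 2 * c ^ 2 = a * (q₃ ^ 2 * q₂) * a⁻¹ := by
    rw [e₂, e₃, conj_pow]
    group
  obtain ⟨k, hk⟩ := sylow_pow Q (Q.mul_mem (Q.pow_mem hq₃ 2) hq₂)
  have hyk : ((g * c * g⁻¹) ^ 2 * c ^ 2) ^ 2 ^ k = 1 := by
    rw [hyq, conj_pow, hk]
    group
  have h4 := orderOf_dvd_of_pow_eq_one hyk
  have h5 := orderOf_dvd_of_pow_eq_one hy3
  have h6 : orderOf ((g * c * g⁻¹) ^ 2 * c ^ 2) ∣ 1 := by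
    have : Nat.Coprime (2 ^ k) 3 := Nat.Coprime.pow_left k (by norm_num)
    rw [← this.gcd_eq_one]
    exact Nat.dvd_gcd h4 h5
  exact hy1 (orderOf_eq_one_iff.1 (Nat.dvd_one.1 h6))

/-- a Sylow subgroup containing a given element with `c ^ 4 = 1` -/
lemma exists_sylow {c : Perm (Fin n)} (h4 : c ^ 4 = 1) : ∃ P : Sylow 2 (Perm (Fin n)), c ∈ P := by
  have hpg : IsPGroup 2 (Subgroup.zpowers c) := by
    rintro ⟨x, hx⟩
    obtain ⟨k, rfl⟩ := Subgroup.mem_zpowers_iff.1 hx
    refine ⟨2, ?_⟩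
    ext1
    change (c ^ k) ^ 4 = 1
    have : (c ^ k) ^ 4 = (c ^ 4) ^ k := by
      rw [← zpow_natCast (c ^ k), ← zpow_mul, mul_comm, zpow_mul]
      norm_cast
    rw [this, h4, one_zpow]
  obtain ⟨P, hP⟩ := hpg.exists_le_sylow
  exact ⟨P, hP (Subgroup.mem_zpowers c)⟩

/-- **Theorem.** For every `n ≥ 5` there is an extremal even-cycle-intersecting family in `S_n`
that is not a double-translate of a Sylow 2-subgroup. -/
theorem result (n : ℕ) (hn : 5 ≤ n) :
    ∃ F : Set (Perm (Fin n)), Extremal F ∧ ¬ IsDoubleTranslate F := by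
  classical
  obtain ⟨F₀, hF₀⟩ := exists_extremal n
  by_cases hT : IsDoubleTranslate F₀
  · obtain ⟨P₀, σ, π, hF₀P⟩ := hT
    have hinj : Function.Injective (fun s : Perm (Fin n) => σ * s * π) := by
      intro a b hab
      simpa using hab
    have hcard₀ : F₀.ncard = (P₀ : Set (Perm (Fin n))).ncard := by
      rw [hF₀P, Set.ncard_image_of_injective _ hinj]
    obtain ⟨c, g, hcs, hc4, hy3, hy1⟩ := exists_elements hn
    obtain ⟨P, hcP⟩ := exists_sylow hc4
    have hcardP : (P : Set (Perm (Fin n))).ncard = (P₀ : Set (Perm (Fin n))).ncard := by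
      have h1 : Nat.card P = Nat.card P₀ := by
        rw [P.card_eq_multiplicity, P₀.card_eq_multiplicity]
      exact h1
    refine ⟨mix g '' (P : Set (Perm (Fin n))), ⟨?_, fun F' hF' => ?_⟩,
      not_translate P hcP hcs hy3 hy1⟩
    · rintro _ ⟨a, ha, rfl⟩ _ ⟨b, hb, rfl⟩ hab
      exact mix_key P g ha hb (fun h => hab (by rw [h]))
    · rw [(mix_injOn P g).ncard_image, hcardP, ← hcard₀]
      exact hF₀.2 F' hF'
  · exact ⟨F₀, hF₀, hT⟩

end Pool.Agent.Results.MP_acd7ab_co.NotTranslate
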